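import Mathlib

/-!
# The real inequality behind the lower bound
-/

namespace Q210.IK

theorem core {al be ga A D b10 b11 b14 b20 b22 b23 p0 p1 p2 p3 p4 : ℝ}
    (c1 : 0 ≤ be) (c2 : be ≤ 1) (c3 : 0 ≤ ga) (c4 : ga ≤ 1) (c5 : al - be ≤ 1)
    (c6 : al - ga ≤ 1) (c7 : 0 ≤ al)
    (m1 : 1 - al ≤ A) (m3 : 1 - ga ≤ A) (m4 : al - ga ≤ A)
    (m6 : 1 ≤ D)
    (u10 : b10 ≤ 1) (u11 : b11 ≤ 1) (l10 : -1 ≤ b10) (l11 : -1 ≤ b11)
    (l14 : -1 ≤ b14) (u20 : b20 ≤ 1) (l22 : -1 ≤ b22)
    (s1 : b10 + b11 + b14 = 0) (s2 : b20 + b22 + b23 = 0)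
    (M1 : A = b10 + al * b11 + ga * b14) (M2 : D = b20 + be * b23)
    (P0 : p0 = (2 * (A * b10) + 16 * (D * b20)) / 18)
    (P1 : p1 = (2 * (A * b11) + (al - be) + 12 * (al - ga)) / 15)
    (P2 : p2 = (16 * (D * b22) - 48 * ga - 20 * be) / 84)
    (P3 : p3 = (16 * (D * b23) + (be - al) + 20 * be) / 37)
    (hc1 : A ≤ 1 - ga → 0 < A → p0 * b10 + p1 * b11 + p4 * b14 ≤ p0 - p4)
    (hc2 : D ≤ 1 → p0 * b20 + p2 * b22 + p3 * b23 ≤ p0 - p2) : 107 / 100 ≤ p0 - p2 := by
  have hD1 : D ≤ 1 := by
    have h1 : 0 ≤ (1 - be) * (1 - b20) := mul_nonneg (by linarith) (by linarith)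
    have h2 : 0 ≤ be * (1 + b22) := mul_nonneg c1 (by linarith)
    have h3 : b23 = -b20 - b22 := by linarith
    rw [M2, h3]
    nlinarith
  have hD : D = 1 := le_antisymm hD1 m6
  have hc2' := hc2 hD1
  clear hc2 m6 hD1
  subst hD
  simp only [one_mul] at P0 P2 P3
  have e14 : b14 = -b10 - b11 := by linarith
  have e22 : b22 = -b20 - b23 := by linarith
  -- `x` is not a minimum of the first hyperedge
  have hb10 : ga < 1 → 0 ≤ b10 := by
    intro hga
    by_contra hneg
    push Not at hneg
    have h1 : b10 * (1 - ga) < 0 := mul_neg_of_neg_of_pos hneg (by linarith)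
    have h2 : A = b10 * (1 - ga) + b11 * (al - ga) := by rw [M1, e14]; ring
    rcases le_or_gt ga al with h | h
    · have : b11 * (al - ga) ≤ al - ga := by
        have : 0 ≤ (1 - b11) * (al - ga) := mul_nonneg (by linarith) (by linarith)
        linarith
      linarith
    · have : b11 * (al - ga) ≤ ga - al := by
        have : 0 ≤ (1 + b11) * (ga - al) := mul_nonneg (by linarith) (by linarith)
        linarith
      linarith
  have hA0 : 0 ≤ A := by linarith
  have hAb : ga < 1 → 0 ≤ A * b10 := fun h => mul_nonneg hA0 (hb10 h)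
  have hAb1 : ga = 1 → -1 ≤ A * b10 := by
    intro hga
    have h2 : A = b11 * (al - 1) := by rw [M1, e14, hga]; ring
    have h3 : A ≤ 1 := by
      rw [h2]
      rcases le_or_gt 1 al with h | h
      · have : 0 ≤ (1 - b11) * (al - 1) := mul_nonneg (by linarith) (by linarith)
        linarith
      · have : 0 ≤ (1 + b11) * (1 - al) := mul_nonneg (by linarith) (by linarith)
        linarith
    nlinarith
  rcases c1.eq_or_lt with hbe | hbe
  · -- `be = 0`
    subst hbe
    have hb20 : b20 = 1 := by linarith
    subst hb20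
    have e23 : b22 = -1 - b23 := by linarith
    rw [e23] at hc2' P2
    have h23 : b23 ≤ 0 := by linarith
    have hY : (16 + 48 * ga) / 84 ≤ -p2 ∨ (16 + 48 * ga + al) / 121 ≤ -p2 := by
      rcases h23.eq_or_lt with h | h
      · left
        rw [P2, h]
        linarith
      · right
        have h3 : 0 ≤ -b23 * (p3 - p2) := by nlinarith
        have h4 : 0 ≤ p3 - p2 := (mul_nonneg_iff_of_pos_left (by linarith)).1 h3
        linarith
    rcases c4.eq_or_lt with hga | hga
    · have h1 := hAb1 hga
      rcases hY with hY | hY <;> linarith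
    · have h1 := hAb hga
      rcases hY with hY | hY
      · linarith
      rcases (show al ≤ 1 by linarith).eq_or_lt with hal | hal
      · subst hal
        have e : A = (b10 + b11) * (1 - ga) := by rw [M1, e14]; ring
        have e1 : b10 + b11 = 1 := by
          have h5 : b10 + b11 ≤ 1 := by linarith
          have h6 : 0 ≤ (b10 + b11 - 1) * (1 - ga) := by linarith
          have h7 : 0 ≤ b10 + b11 - 1 := (mul_nonneg_iff_of_pos_right (by linarith)).1 h6
          linarith
        rw [e1, one_mul] at e
        have h8 := hc1 e.le (by rw [e]; linarith)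
        have e10 : b10 = 1 - b11 := by linarith
        have e14' : b14 = -1 := by linarith
        rw [e14', e10] at h8
        have h9 : 0 ≤ b11 * (p0 - p1) := by nlinarith
        have h11 : 0 ≤ b11 := by linarith
        rcases h11.eq_or_lt with h | h
        · have : b10 = 1 := by linarith
          rw [this, e] at P0
          linarith
        · have h12 : 0 ≤ p0 - p1 := (mul_nonneg_iff_of_pos_left h).1 h9
          rw [e] at P0 P1
          have h13 : (1 - ga) * b10 + (1 - ga) * b11 = 1 - ga := by rw [e10]; ring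
          rw [e] at h1
          linarith
      · -- `al < 1`, `ga < 1`
        have h5 : b10 = 1 := by
          by_contra hne
          have h6 : b10 < 1 := lt_of_le_of_ne u10 hne
          have h2 : A = b10 * (1 - ga) + b11 * (al - ga) := by rw [M1, e14]; ring
          have h7 : b11 ≤ 1 - b10 := by linarith
          rcases le_or_gt ga al with h | h
          · have h8 : 0 ≤ (1 - b10 - b11) * (al - ga) := mul_nonneg (by linarith) (by linarith)
            have h9 : 0 < (1 - b10) * (1 - al) := mul_pos (by linarith) (by linarith)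
            linarith
          · have h8 : 0 ≤ (1 + b11) * (ga - al) := mul_nonneg (by linarith) (by linarith)
            have h9 : 0 < (1 - b10) * (1 - ga) := mul_pos (by linarith) (by linarith)
            linarith
        rw [h5] at P0
        linarith
  · -- `0 < be`
    rcases c2.eq_or_lt with hbe1 | hbe1
    · -- `be = 1`
      subst hbe1
      have e1 : b22 = -1 := by linarith
      have e2 : b20 = 1 - b23 := by linarith
      rw [e1, e2] at hc2'
      rw [e1] at P2
      rw [e2] at P0
      have h3 : 0 ≤ b23 * (p0 - p3) := by nlinarith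
      have h4 : 0 ≤ b23 := by linarith
      have hlow : -1 ≤ A * b10 := by
        rcases c4.eq_or_lt with hga | hga
        · exact hAb1 hga
        · linarith [hAb hga]
      rcases h4.eq_or_lt with h | h
      · rw [← h] at P0
        linarith
      · have h5 : 0 ≤ p0 - p3 := (mul_nonneg_iff_of_pos_left h).1 h3
        rcases c4.eq_or_lt with hga | hga
        · linarith
        · linarith [hAb hga]
    · -- `0 < be < 1`
      have h1 : b23 = 0 := by
        have h2 : 0 ≤ be * b23 := by linarith
        have h3 : 0 ≤ b23 := (mul_nonneg_iff_of_pos_left hbe).1 h2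
        have h4 : 0 ≤ (1 - be) * -b23 := by linarith
        have h5 : 0 ≤ -b23 := (mul_nonneg_iff_of_pos_left (by linarith)).1 h4
        linarith
      rw [h1] at M2 s2
      have e1 : b20 = 1 := by linarith
      have e2 : b22 = -1 := by linarith
      rw [e1] at P0
      rw [e2] at P2
      rcases c4.eq_or_lt with hga | hga
      · linarith [hAb1 hga]
      · linarith [hAb hga]

end Q210.IK
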