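import Mathlib

/-!
# Weighted hypergraphs, the hypergraph Laplacian and the IKTU curvature (MP_da7216_co)
-/

namespace Q210.IK

open Finset Filter Topology

variable {V : Type} [Fintype V] [DecidableEq V]

/-- A finite weighted hypergraph: a finite set of nonempty vertex sets with positive weights. -/
structure WHyp (V : Type) [Fintype V] [DecidableEq V] where
  /-- the hyperedges -/
  edges : Finset (Finset V)
  /-- the weights (only the values on hyperedges matter) -/
  weight : Finset V → ℝ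
  nonempty_of_mem : ∀ e ∈ edges, e.Nonempty
  weight_pos : ∀ e ∈ edges, 0 < weight e

namespace WHyp

variable (H : WHyp V)

/-- The graph with `x ~ y` if some hyperedge contains both. -/
def graph : SimpleGraph V where
  Adj x y := x ≠ y ∧ ∃ e ∈ H.edges, x ∈ e ∧ y ∈ e
  symm := ⟨fun _ _ h => ⟨h.1.symm, h.2.imp fun _ he => ⟨he.1, he.2.2, he.2.1⟩⟩⟩
  loopless := ⟨fun _ h => h.1 rfl⟩

/-- The path distance. -/
noncomputable def dist (x y : V) : ℝ := (H.graph.dist x y : ℝ)

/-- The weighted degree `d_v`. -/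
noncomputable def deg (v : V) : ℝ := ∑ e ∈ H.edges with v ∈ e, H.weight e

/-- The inner product `⟨f, g⟩ = ∑_v f(v) g(v) / d_v`. -/
noncomputable def inner (f g : V → ℝ) : ℝ := ∑ v, f v * g v / H.deg v

/-- `δ_x - δ_y`. -/
def dd (x y : V) : V → ℝ := Pi.single x 1 - Pi.single y 1

/-- The polytope `B_e`, the convex hull of the `δ_x - δ_y` with `x, y ∈ e`. -/
def B (e : Finset V) : Set (V → ℝ) := convexHull ℝ {b | ∃ x ∈ e, ∃ y ∈ e, b = dd x y}

/-- The maximisers of `⟨f, b⟩` over `b ∈ B_e`. -/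
def argmax (f : V → ℝ) (e : Finset V) : Set (V → ℝ) :=
  {b | b ∈ B e ∧ ∀ c ∈ B e, H.inner f c ≤ H.inner f b}

/-- The (multivalued) hypergraph Laplacian. -/
def lap (f : V → ℝ) : Set (V → ℝ) :=
  {g | ∃ b : Finset V → V → ℝ, (∀ e ∈ H.edges, b e ∈ H.argmax f e) ∧
    g = ∑ e ∈ H.edges, (H.weight e * H.inner f (b e)) • b e}

/-- `g` is the element of least norm of the Laplacian of `f`, that is `g = 𝓛⁰ f`. -/
def IsLap0 (f g : V → ℝ) : Prop :=
  g ∈ H.lap f ∧ ∀ g' ∈ H.lap f, H.inner g g ≤ H.inner g' g'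

/-- `h` is the resolvent `J_l f = (1 + l 𝓛)⁻¹ f`. -/
def IsRes (l : ℝ) (f h : V → ℝ) : Prop := ∃ p ∈ H.lap h, f = h + l • p

/-- The weighted `1`-Lipschitz functions. -/
def Lip : Set (V → ℝ) := {f | ∀ x y, H.inner f (dd x y) ≤ H.dist x y}

/-- The `l`-Kantorovich difference `K_l(x, y)`. -/
noncomputable def K (l : ℝ) (x y : V) : ℝ :=
  sSup {r | ∃ f ∈ H.Lip, ∃ h, H.IsRes l f h ∧ r = H.inner h (dd x y)}

/-- The quotient `(1 - K_l(x, y) / d(x, y)) / l`, whose limit for `l ↓ 0` is the curvature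
`κ(x, y)`. -/
noncomputable def quot (x y : V) (l : ℝ) : ℝ := 1 / l * (1 - H.K l x y / H.dist x y)

/-- The quantity `𝒞(x, y)`. -/
noncomputable def C (x y : V) : ℝ :=
  1 / H.dist x y * sInf {r | ∃ f ∈ H.Lip, H.inner f (dd x y) = H.dist x y ∧
    ∃ g, H.IsLap0 f g ∧ r = H.inner g (dd x y)}

end WHyp

end Q210.IK
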