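import Pool.Agent.Q210.IK.Gen

/-!
# The example: 5 vertices `x = 0`, `a = 1`, `y = 2`, `b = 3`, `c = 4`, 6 hyperedges
-/

namespace Q210.IK

open Finset Filter Topology

/-- The weights of the example. -/
noncomputable def exW (e : Finset (Fin 5)) : ℝ :=
  if e = {0, 1, 4} then 2 else if e = {0, 2, 3} then 16 else if e = {1, 3} then 1 else
  if e = {2, 4} then 48 else if e = {1, 4} then 12 else 20

/-- The hyperedges of the example. -/
def exE : Finset (Finset (Fin 5)) := {{0, 1, 4}, {0, 2, 3}, {1, 3}, {2, 4}, {1, 4}, {2, 3}}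

/-- The example. -/
noncomputable def ex : WHyp (Fin 5) where
  edges := exE
  weight := exW
  nonempty_of_mem := by decide
  weight_pos := by
    intro e _
    unfold exW
    split_ifs <;> norm_num

theorem exW1 : exW {0, 1, 4} = 2 := by simp [exW]
theorem exW2 : exW {0, 2, 3} = 16 := by
  unfold exW
  rw [if_neg (by decide), if_pos rfl]
theorem exW3 : exW {1, 3} = 1 := by
  unfold exW
  rw [if_neg (by decide), if_neg (by decide), if_pos rfl]
theorem exW4 : exW {2, 4} = 48 := by
  unfold exW
  rw [if_neg (by decide), if_neg (by decide), if_neg (by decide), if_pos rfl]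
theorem exW5 : exW {1, 4} = 12 := by
  unfold exW
  rw [if_neg (by decide), if_neg (by decide), if_neg (by decide), if_neg (by decide), if_pos rfl]
theorem exW6 : exW {2, 3} = 20 := by
  unfold exW
  rw [if_neg (by decide), if_neg (by decide), if_neg (by decide), if_neg (by decide),
    if_neg (by decide)]

theorem sum_exE {M : Type} [AddCommMonoid M] (F : Finset (Fin 5) → M) :
    ∑ e ∈ exE, F e = F {0, 1, 4} + (F {0, 2, 3} + (F {1, 3} + (F {2, 4} + (F {1, 4} +
      F {2, 3})))) := by
  unfold exE
  rw [Finset.sum_insert (by decide), Finset.sum_insert (by decide), Finset.sum_insert (by decide),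
    Finset.sum_insert (by decide), Finset.sum_insert (by decide), Finset.sum_singleton]

theorem deg_eq (v : Fin 5) : ex.deg v = ![18, 15, 84, 37, 62] v := by
  unfold WHyp.deg
  rw [Finset.sum_filter]
  show ∑ e ∈ exE, (if v ∈ e then exW e else 0) = _
  rw [sum_exE, exW1, exW2, exW3, exW4, exW5, exW6]
  fin_cases v <;> simp <;> norm_num

theorem mem1 : ({0, 1, 4} : Finset (Fin 5)) ∈ exE := by decide
theorem mem2 : ({0, 2, 3} : Finset (Fin 5)) ∈ exE := by decide
theorem mem3 : ({1, 3} : Finset (Fin 5)) ∈ exE := by decide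
theorem mem4 : ({2, 4} : Finset (Fin 5)) ∈ exE := by decide
theorem mem5 : ({1, 4} : Finset (Fin 5)) ∈ exE := by decide
theorem mem6 : ({2, 3} : Finset (Fin 5)) ∈ exE := by decide

theorem dist_one {u v : Fin 5} (huv : u ≠ v) {e : Finset (Fin 5)} (he : e ∈ exE) (hu : u ∈ e)
    (hv : v ∈ e) : ex.dist u v = 1 := by
  have hadj : ex.graph.Adj u v := ⟨huv, e, he, hu, hv⟩
  unfold WHyp.dist
  rw [SimpleGraph.dist_eq_one_iff_adj.2 hadj]
  simp

theorem connected : ex.graph.Connected := by
  have h0 : ∀ v : Fin 5, ex.graph.Reachable 0 v := by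
    have h01 : ex.graph.Adj 0 1 := ⟨by decide, _, mem1, by decide, by decide⟩
    have h02 : ex.graph.Adj 0 2 := ⟨by decide, _, mem2, by decide, by decide⟩
    have h03 : ex.graph.Adj 0 3 := ⟨by decide, _, mem2, by decide, by decide⟩
    have h04 : ex.graph.Adj 0 4 := ⟨by decide, _, mem1, by decide, by decide⟩
    intro v
    fin_cases v
    · exact SimpleGraph.Reachable.refl _
    · exact h01.reachable
    · exact h02.reachable
    · exact h03.reachable
    · exact h04.reachable
  exact ⟨fun u v => (h0 u).symm.trans (h0 v)⟩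

/-- One hyperedge is changed in the variational inequality. -/
theorem variation_one {V : Type} [Fintype V] [DecidableEq V] (H : WHyp V) {f : V → ℝ}
    {b : Finset V → V → ℝ}
    (hb : ∀ e ∈ H.edges, b e ∈ H.argmax f e) {p : V → ℝ}
    (hp : p = ∑ e ∈ H.edges, (H.weight e * H.inner f (b e)) • b e)
    (hmin : ∀ g' ∈ H.lap f, H.inner p p ≤ H.inner g' g') {e₀ : Finset V} (he₀ : e₀ ∈ H.edges)
    {c : V → ℝ} (hc : c ∈ H.argmax f e₀) :
    0 ≤ H.weight e₀ * H.inner f (b e₀) * (H.inner p c - H.inner p (b e₀)) := by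
  have h1 := H.variation hb (b' := Function.update b e₀ c) (fun e he => ?_) hp hmin
  · have h2 : ∑ e ∈ H.edges, (H.weight e * H.inner f (b e)) • (Function.update b e₀ c e - b e) =
        (H.weight e₀ * H.inner f (b e₀)) • (c - b e₀) := by
      rw [Finset.sum_eq_single_of_mem e₀ he₀]
      · rw [Function.update_self]
      · intro e _ hne
        rw [Function.update_of_ne hne, sub_self, smul_zero]
    rw [h2, ← H.innerL_apply, map_smul, map_sub, H.innerL_apply, H.innerL_apply,
      smul_eq_mul] at h1
    exact h1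
  · by_cases h : e = e₀
    · subst h
      rw [Function.update_self]
      exact hc
    · rw [Function.update_of_ne h]
      exact hb e he

/-- The flow through a hyperedge with two vertices. -/
theorem pair_flow {V : Type} [Fintype V] [DecidableEq V] (H : WHyp V) {f b : V → ℝ} {u v : V}
    (huv : u ≠ v) (hb : b ∈ H.argmax f {u, v}) :
    H.inner f b * b u = H.ph f u - H.ph f v ∧ H.inner f b * b v = H.ph f v - H.ph f u := by
  have hs : b u + b v = 0 := by
    have h := WHyp.B_sum hb.1
    rw [← Finset.sum_subset (Finset.subset_univ {u, v})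
      (fun w _ hw => WHyp.B_supp hb.1 hw), Finset.sum_pair huv] at h
    exact h
  have hi : H.inner f b = H.ph f u * b u + H.ph f v * b v := by
    rw [H.inner_eq, ← Finset.sum_subset (Finset.subset_univ {u, v})
      (fun w _ hw => by rw [WHyp.B_supp hb.1 hw, mul_zero]), Finset.sum_pair huv]
  have h1 := hb.2 _ (WHyp.dd_mem (x := u) (y := v) (by simp) (by simp))
  have h2 := hb.2 _ (WHyp.dd_mem (x := v) (y := u) (by simp) (by simp))
  rw [H.inner_dd] at h1 h2
  have h3 := WHyp.B_le_one hb.1 u
  have h4 := WHyp.B_ge hb.1 u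
  have hv : b v = -b u := by linarith
  rw [hi, hv] at h1 h2
  rw [hi, hv]
  set D := H.ph f u - H.ph f v with hD
  have e1 : H.ph f u * b u + H.ph f v * -b u = D * b u := by rw [hD]; ring
  rw [e1] at h1 h2 ⊢
  have key : D * b u * b u = D := by
    rcases lt_trichotomy D 0 with h | h | h
    · have : b u = -1 := by nlinarith
      rw [this]; ring
    · rw [h]; ring
    · have : b u = 1 := by nlinarith
      rw [this]; ring
  exact ⟨key, by linarith⟩

end Q210.IK
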