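import Pool.Agent.Q210.IK.Defs

/-!
# General facts on the hypergraph Laplacian
-/

namespace Q210.IK

open Finset Filter Topology

variable {V : Type} [Fintype V] [DecidableEq V]

namespace WHyp

variable (H : WHyp V)

/-- The coordinate `⟨f, δ_v⟩`. -/
noncomputable def ph (f : V → ℝ) (v : V) : ℝ := f v / H.deg v

/-- The linear functional `⟨f, ·⟩`. -/
noncomputable def innerL (f : V → ℝ) : (V → ℝ) →ₗ[ℝ] ℝ := ∑ v, H.ph f v • LinearMap.proj v

theorem inner_eq (f b : V → ℝ) : H.inner f b = ∑ v, H.ph f v * b v := by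
  unfold inner ph
  refine Finset.sum_congr rfl fun v _ => by ring

theorem innerL_apply (f b : V → ℝ) : H.innerL f b = H.inner f b := by
  rw [inner_eq, innerL, LinearMap.sum_apply]
  rfl

omit [Fintype V] in
theorem dd_apply (x y v : V) : dd x y v = (if v = x then 1 else 0) - (if v = y then 1 else 0) := by
  unfold dd
  simp only [Pi.sub_apply, Pi.single_apply]

theorem inner_dd (f : V → ℝ) (x y : V) : H.inner f (dd x y) = H.ph f x - H.ph f y := by
  rw [inner_eq]
  simp only [dd_apply, mul_sub, mul_ite, mul_one, mul_zero, Finset.sum_sub_distrib,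
    Finset.sum_ite_eq', Finset.mem_univ, if_true]

theorem inner_add_smul_sq (p q : V → ℝ) (s : ℝ) :
    H.inner (p + s • q) (p + s • q) = H.inner p p + 2 * s * H.inner p q + s ^ 2 * H.inner q q := by
  unfold inner
  rw [Finset.mul_sum, Finset.mul_sum, ← Finset.sum_add_distrib, ← Finset.sum_add_distrib]
  refine Finset.sum_congr rfl fun v _ => ?_
  simp only [Pi.add_apply, Pi.smul_apply, smul_eq_mul]
  ring

omit [Fintype V] in
theorem B_le {e : Finset V} {L : (V → ℝ) →ₗ[ℝ] ℝ} {c : ℝ}
    (h : ∀ x ∈ e, ∀ y ∈ e, L (dd x y) ≤ c) {b : V → ℝ} (hb : b ∈ B e) : L b ≤ c := by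
  refine convexHull_min (t := {w | L w ≤ c}) ?_ (convex_halfSpace_le L.isLinear c) hb
  rintro b ⟨x, hx, y, hy, rfl⟩
  exact h x hx y hy

omit [Fintype V] in
theorem B_eq {e : Finset V} {L : (V → ℝ) →ₗ[ℝ] ℝ} {c : ℝ}
    (h : ∀ x ∈ e, ∀ y ∈ e, L (dd x y) = c) {b : V → ℝ} (hb : b ∈ B e) : L b = c := by
  refine le_antisymm (B_le (fun x hx y hy => (h x hx y hy).le) hb) ?_
  have := B_le (L := -L) (c := -c) (fun x hx y hy => by simp [h x hx y hy]) hb
  simpa using this

omit [Fintype V] in
theorem B_le_one {e : Finset V} {b : V → ℝ} (hb : b ∈ B e) (v : V) : b v ≤ 1 := by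
  refine B_le (L := LinearMap.proj v) (fun x _ y _ => ?_) hb
  simp only [LinearMap.proj_apply, dd_apply]
  split_ifs <;> norm_num

omit [Fintype V] in
theorem B_ge {e : Finset V} {b : V → ℝ} (hb : b ∈ B e) (v : V) : -1 ≤ b v := by
  have := B_le (L := -LinearMap.proj v) (c := 1) (fun x _ y _ => ?_) hb
  · simp only [LinearMap.neg_apply, LinearMap.proj_apply] at this
    linarith
  simp only [LinearMap.neg_apply, LinearMap.proj_apply, dd_apply]
  split_ifs <;> norm_num

omit [Fintype V] in
theorem B_supp {e : Finset V} {b : V → ℝ} (hb : b ∈ B e) {v : V} (hv : v ∉ e) : b v = 0 := by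
  refine B_eq (L := LinearMap.proj v) (fun x hx y hy => ?_) hb
  have h1 : v ≠ x := fun h => hv (h ▸ hx)
  have h2 : v ≠ y := fun h => hv (h ▸ hy)
  simp [dd_apply, h1, h2]

theorem B_sum {e : Finset V} {b : V → ℝ} (hb : b ∈ B e) : ∑ v, b v = 0 := by
  have := B_eq (L := ∑ v, LinearMap.proj v) (c := 0) (fun x hx y hy => ?_) hb
  · simpa using this
  simp [dd_apply]

omit [Fintype V] in
theorem dd_mem {e : Finset V} {x y : V} (hx : x ∈ e) (hy : y ∈ e) : dd x y ∈ B e :=
  subset_convexHull ℝ _ ⟨x, hx, y, hy, rfl⟩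

omit [Fintype V] in
theorem isCompact_B (e : Finset V) : IsCompact (B e) := by
  refine Set.Finite.isCompact_convexHull (𝕜 := ℝ) (E := V → ℝ) (s := {b | ∃ x ∈ e, ∃ y ∈ e, b = dd x y}) ?_
  refine ((e ×ˢ e).finite_toSet.image fun z : V × V => dd z.1 z.2).subset ?_
  rintro b ⟨x, hx, y, hy, rfl⟩
  exact ⟨(x, y), by simp [hx, hy], rfl⟩

theorem continuous_inner_right (f : V → ℝ) : Continuous fun b => H.inner f b := by
  unfold inner
  fun_prop

theorem isCompact_argmax (f : V → ℝ) (e : Finset V) : IsCompact (H.argmax f e) := by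
  have h0 : H.argmax f e = B e ∩ {b : V → ℝ | ∀ c ∈ B e, H.inner f c ≤ H.inner f b} := rfl
  rw [h0]
  refine (isCompact_B e).inter_right ?_
  have : {b : V → ℝ | ∀ c ∈ B e, H.inner f c ≤ H.inner f b} =
      ⋂ c ∈ B e, {b : V → ℝ | H.inner f c ≤ H.inner f b} := by
    ext b
    simp
  rw [this]
  exact isClosed_biInter fun c _ => isClosed_le continuous_const (H.continuous_inner_right f)

theorem argmax_nonempty (f : V → ℝ) {e : Finset V} (he : e.Nonempty) :
    (H.argmax f e).Nonempty := by
  obtain ⟨x, hx⟩ := he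
  obtain ⟨b, hb, hb'⟩ := (isCompact_B e).exists_isMaxOn ⟨_, dd_mem hx hx⟩
    (H.continuous_inner_right f).continuousOn
  exact ⟨b, hb, fun c hc => hb' hc⟩

/-- `𝓛⁰ f` exists. -/
theorem exists_lap0 (f : V → ℝ) : ∃ g, H.IsLap0 f g := by
  classical
  set S : Set (Finset V → V → ℝ) :=
    Set.pi Set.univ fun e => if e ∈ H.edges then H.argmax f e else {0} with hS
  have hSc : IsCompact S := by
    refine isCompact_univ_pi fun e => ?_
    split_ifs
    · exact H.isCompact_argmax f e
    · exact isCompact_singleton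
  have hSn : S.Nonempty := by
    refine Set.univ_pi_nonempty_iff.2 fun e => ?_
    split_ifs with he
    · exact H.argmax_nonempty f (H.nonempty_of_mem e he)
    · exact Set.singleton_nonempty _
  set F : (Finset V → V → ℝ) → V → ℝ :=
    fun b => ∑ e ∈ H.edges, (H.weight e * H.inner f (b e)) • b e with hF
  have hFc : Continuous F := by
    rw [hF]
    refine continuous_finsetSum _ fun e _ => ?_
    have h1 : Continuous fun b : Finset V → V → ℝ => H.inner f (b e) :=
      (H.continuous_inner_right f).comp (continuous_apply e)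
    exact (continuous_const.mul h1).smul (continuous_apply e)
  have hNc : Continuous fun g : V → ℝ => H.inner g g := by
    unfold inner
    fun_prop
  obtain ⟨b, hb, hb'⟩ := hSc.exists_isMinOn hSn (hNc.comp hFc).continuousOn
  refine ⟨F b, ⟨b, fun e he => ?_, rfl⟩, ?_⟩
  · have := hb e (Set.mem_univ e)
    simpa [he] using this
  · rintro g' ⟨b', hb1, rfl⟩
    set b2 : Finset V → V → ℝ := fun e => if e ∈ H.edges then b' e else 0 with hb2
    have hb2S : b2 ∈ S := by
      intro e _
      by_cases he : e ∈ H.edges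
      · simpa [hb2, he] using hb1 e he
      · simp [hb2, he]
    have h3 : F b2 = ∑ e ∈ H.edges, (H.weight e * H.inner f (b' e)) • b' e := by
      rw [hF]
      refine Finset.sum_congr rfl fun e he => ?_
      simp [hb2, he]
    have h4 := hb' hb2S
    simp only [Set.mem_ofPred_eq, Function.comp] at h4
    rw [h3] at h4
    exact h4

theorem argmax_value {f : V → ℝ} {e : Finset V} {b b' : V → ℝ} (hb : b ∈ H.argmax f e)
    (hb' : b' ∈ H.argmax f e) : H.inner f b = H.inner f b' :=
  le_antisymm (hb'.2 _ hb.1) (hb.2 _ hb'.1)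

theorem argmax_convex {f : V → ℝ} {e : Finset V} {b b' : V → ℝ} (hb : b ∈ H.argmax f e)
    (hb' : b' ∈ H.argmax f e) {s : ℝ} (h0 : 0 ≤ s) (h1 : s ≤ 1) :
    b + s • (b' - b) ∈ H.argmax f e := by
  have hB : b + s • (b' - b) ∈ B e := (convex_convexHull ℝ _).add_smul_sub_mem hb.1 hb'.1 ⟨h0, h1⟩
  refine ⟨hB, fun c hc => ?_⟩
  have : H.inner f (b + s • (b' - b)) = H.inner f b := by
    rw [← innerL_apply, map_add, map_smul, map_sub, innerL_apply, innerL_apply,
      H.argmax_value hb' hb]
    simp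
  rw [this]
  exact hb.2 c hc

/-- The variational inequality for `𝓛⁰ f`. -/
theorem variation {f : V → ℝ} {b b' : Finset V → V → ℝ}
    (hb : ∀ e ∈ H.edges, b e ∈ H.argmax f e) (hb' : ∀ e ∈ H.edges, b' e ∈ H.argmax f e)
    {p : V → ℝ} (hp : p = ∑ e ∈ H.edges, (H.weight e * H.inner f (b e)) • b e)
    (hmin : ∀ g' ∈ H.lap f, H.inner p p ≤ H.inner g' g') :
    0 ≤ H.inner p (∑ e ∈ H.edges, (H.weight e * H.inner f (b e)) • (b' e - b e)) := by
  set q := ∑ e ∈ H.edges, (H.weight e * H.inner f (b e)) • (b' e - b e) with hq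
  have key : ∀ s : ℝ, 0 < s → s ≤ 1 → 0 ≤ 2 * s * H.inner p q + s ^ 2 * H.inner q q := by
    intro s h0 h1
    have hmem : p + s • q ∈ H.lap f := by
      refine ⟨fun e => b e + s • (b' e - b e),
        fun e he => H.argmax_convex (hb e he) (hb' e he) h0.le h1, ?_⟩
      rw [hp, hq, Finset.smul_sum, ← Finset.sum_add_distrib]
      refine Finset.sum_congr rfl fun e he => ?_
      rw [H.argmax_value (H.argmax_convex (hb e he) (hb' e he) h0.le h1) (hb e he),
        smul_add, smul_comm s]
    have := hmin _ hmem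
    rw [inner_add_smul_sq] at this
    linarith
  by_contra hneg
  push Not at hneg
  set A := H.inner p q
  set D := H.inner q q
  rcases le_or_gt D 0 with hD | hD
  · have := key 1 one_pos le_rfl
    nlinarith
  · have hs : 0 < min 1 (-A / D) := lt_min one_pos (div_pos (by linarith) hD)
    have h1 := key _ hs (min_le_left _ _)
    have h2 : min 1 (-A / D) * D ≤ -A := by
      calc min 1 (-A / D) * D ≤ (-A / D) * D := by
            exact mul_le_mul_of_nonneg_right (min_le_right _ _) hD.le
        _ = -A := by field_simp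
    nlinarith

theorem argmax_nonneg {f : V → ℝ} {e : Finset V} (he : e.Nonempty) {b : V → ℝ}
    (hb : b ∈ H.argmax f e) : 0 ≤ H.inner f b := by
  obtain ⟨x, hx⟩ := he
  have := hb.2 _ (dd_mem hx hx)
  rw [inner_dd] at this
  linarith

theorem max_principle {h b : V → ℝ} {e : Finset V} (he : e.Nonempty)
    (hb : b ∈ H.argmax h e) {v : V} (hv : ∀ u, H.ph h u ≤ H.ph h v) :
    0 ≤ H.inner h b * b v := by
  set M := H.inner h b with hM
  have hM0 : 0 ≤ M := H.argmax_nonneg he hb
  have h1 := B_le (L := H.innerL h - M • LinearMap.proj v) (c := M) (fun x hx y hy => ?_) hb.1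
  · simp only [LinearMap.sub_apply, innerL_apply, LinearMap.smul_apply, LinearMap.proj_apply,
      smul_eq_mul] at h1
    linarith
  · simp only [LinearMap.sub_apply, innerL_apply, LinearMap.smul_apply, LinearMap.proj_apply,
      smul_eq_mul, dd_apply]
    have h2 := hb.2 _ (dd_mem hx hy)
    rw [← hM] at h2
    split_ifs with h3 h4 h4
    · linarith
    · linarith
    · rw [inner_dd, ← h4]
      linarith [hv x]
    · linarith

theorem min_principle {h b : V → ℝ} {e : Finset V} (he : e.Nonempty)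
    (hb : b ∈ H.argmax h e) {v : V} (hv : ∀ u, H.ph h v ≤ H.ph h u) :
    H.inner h b * b v ≤ 0 := by
  set M := H.inner h b with hM
  have hM0 : 0 ≤ M := H.argmax_nonneg he hb
  have h1 := B_le (L := H.innerL h + M • LinearMap.proj v) (c := M) (fun x hx y hy => ?_) hb.1
  · simp only [LinearMap.add_apply, innerL_apply, LinearMap.smul_apply, LinearMap.proj_apply,
      smul_eq_mul] at h1
    linarith
  · simp only [LinearMap.add_apply, innerL_apply, LinearMap.smul_apply, LinearMap.proj_apply,
      smul_eq_mul, dd_apply]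
    have h2 := hb.2 _ (dd_mem hx hy)
    rw [← hM] at h2
    split_ifs with h3 h4 h4
    · linarith
    · rw [inner_dd, ← h3]
      linarith [hv y]
    · linarith
    · linarith

theorem deg_nonneg (v : V) : 0 ≤ H.deg v :=
  Finset.sum_nonneg fun e he => (H.weight_pos e (Finset.mem_filter.1 he).1).le

/-- The set in the definition of `K` is bounded. -/
theorem bddAbove_K [Nonempty V] {l : ℝ} (hl : 0 < l) (x y : V) :
    BddAbove {r | ∃ f ∈ H.Lip, ∃ h, H.IsRes l f h ∧ r = H.inner h (dd x y)} := by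
  refine ⟨∑ a, ∑ b, H.dist a b, ?_⟩
  rintro r ⟨f, hf, h, ⟨p, ⟨b, hb, hp⟩, hfh⟩, rfl⟩
  obtain ⟨v, hv⟩ := Finite.exists_max (H.ph h)
  obtain ⟨w, hw⟩ := Finite.exists_min (H.ph h)
  have hpv : 0 ≤ p v := by
    rw [hp, Finset.sum_apply]
    refine Finset.sum_nonneg fun e he => ?_
    have := H.max_principle (H.nonempty_of_mem e he) (hb e he) hv
    rw [Pi.smul_apply, smul_eq_mul, mul_assoc]
    exact mul_nonneg (H.weight_pos e he).le this
  have hpw : p w ≤ 0 := by
    rw [hp, Finset.sum_apply]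
    refine Finset.sum_nonpos fun e he => ?_
    have := H.min_principle (H.nonempty_of_mem e he) (hb e he) hw
    rw [Pi.smul_apply, smul_eq_mul, mul_assoc]
    exact mul_nonpos_of_nonneg_of_nonpos (H.weight_pos e he).le this
  have h1 : H.ph h v ≤ H.ph f v := by
    unfold ph
    rw [hfh]
    refine div_le_div_of_nonneg_right ?_ (H.deg_nonneg v)
    simp only [Pi.add_apply, Pi.smul_apply, smul_eq_mul]
    nlinarith
  have h2 : H.ph f w ≤ H.ph h w := by
    unfold ph
    rw [hfh]
    refine div_le_div_of_nonneg_right ?_ (H.deg_nonneg w)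
    simp only [Pi.add_apply, Pi.smul_apply, smul_eq_mul]
    nlinarith
  have h3 := hf v w
  rw [inner_dd] at h3 ⊢
  have h4 : H.dist v w ≤ ∑ a, ∑ b, H.dist a b := by
    have hn : ∀ a b, 0 ≤ H.dist a b := fun a b => Nat.cast_nonneg _
    calc H.dist v w ≤ ∑ b, H.dist v b := Finset.single_le_sum (fun b _ => hn v b) (Finset.mem_univ w)
      _ ≤ _ := Finset.single_le_sum (f := fun a => ∑ b, H.dist a b)
        (fun a _ => Finset.sum_nonneg fun b _ => hn a b) (Finset.mem_univ v)
  linarith [hv x, hw y]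

end WHyp

end Q210.IK
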