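import Pool.Agent.Q210.IK.Ex
import Pool.Agent.Q210.IK.Core

/-!
# Lower bound: `⟨𝓛⁰ f, δ_x - δ_y⟩ ≥ 107/100` for all `f ∈ Lip` with `⟨f, δ_x - δ_y⟩ = 1`
-/

namespace Q210.IK

open Finset Filter Topology WHyp

theorem lower {f : Fin 5 → ℝ} (hf : f ∈ ex.Lip) (hxy : ex.inner f (dd 0 2) = 1) {g : Fin 5 → ℝ}
    (hg : ex.IsLap0 f g) : 107 / 100 ≤ ex.inner g (dd 0 2) := by
  obtain ⟨⟨b, hb, hgb⟩, hmin⟩ := hg
  have hb1 := hb _ mem1
  have hb2 := hb _ mem2
  have hb3 := hb _ mem3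
  have hb4 := hb _ mem4
  have hb5 := hb _ mem5
  have hb6 := hb _ mem6
  -- the Lipschitz conditions
  have L : ∀ u v : Fin 5, ∀ e ∈ exE, u ≠ v → u ∈ e → v ∈ e → ex.ph f u - ex.ph f v ≤ 1 := by
    intro u v e he huv hu hv
    have := hf u v
    rw [ex.inner_dd, dist_one huv he hu hv] at this
    exact this
  rw [ex.inner_dd] at hxy
  have c1 := L 0 3 _ mem2 (by decide) (by decide) (by decide)
  have c2 := L 3 2 _ mem2 (by decide) (by decide) (by decide)
  have c3 := L 0 4 _ mem1 (by decide) (by decide) (by decide)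
  have c4 := L 4 2 _ mem4 (by decide) (by decide) (by decide)
  have c5 := L 1 3 _ mem3 (by decide) (by decide) (by decide)
  have c6 := L 1 4 _ mem5 (by decide) (by decide) (by decide)
  have c7 := L 0 1 _ mem1 (by decide) (by decide) (by decide)
  clear L
  -- the flows through the pairs
  obtain ⟨f31, f33⟩ := pair_flow ex (u := 1) (v := 3) (by decide) hb3
  obtain ⟨f42, f44⟩ := pair_flow ex (u := 2) (v := 4) (by decide) hb4
  obtain ⟨f51, f54⟩ := pair_flow ex (u := 1) (v := 4) (by decide) hb5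
  obtain ⟨f62, f63⟩ := pair_flow ex (u := 2) (v := 3) (by decide) hb6
  have hE : g = ∑ e ∈ exE, (exW e * ex.inner f (b e)) • b e := hgb
  have hcoord : ∀ v, g v = 2 * (ex.inner f (b {0, 1, 4}) * b {0, 1, 4} v) +
      16 * (ex.inner f (b {0, 2, 3}) * b {0, 2, 3} v) +
      (ex.inner f (b {1, 3}) * b {1, 3} v) + 48 * (ex.inner f (b {2, 4}) * b {2, 4} v) +
      12 * (ex.inner f (b {1, 4}) * b {1, 4} v) + 20 * (ex.inner f (b {2, 3}) * b {2, 3} v) := by
    intro v
    rw [hE, sum_exE, exW1, exW2, exW3, exW4, exW5, exW6]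
    simp only [Pi.add_apply, Pi.smul_apply, smul_eq_mul]
    ring
  -- the variational inequalities
  have var1 : ∀ c ∈ ex.argmax f {0, 1, 4}, 0 ≤ 2 * ex.inner f (b {0, 1, 4}) *
      (ex.inner g c - ex.inner g (b {0, 1, 4})) := by
    intro c hc
    have := variation_one ex hb hgb hmin mem1 hc
    have h2 : ex.weight {0, 1, 4} = 2 := exW1
    rw [h2] at this
    exact this
  have var2 : ∀ c ∈ ex.argmax f {0, 2, 3}, 0 ≤ 16 * ex.inner f (b {0, 2, 3}) *
      (ex.inner g c - ex.inner g (b {0, 2, 3})) := by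
    intro c hc
    have := variation_one ex hb hgb hmin mem2 hc
    have h2 : ex.weight {0, 2, 3} = 16 := exW2
    rw [h2] at this
    exact this
  have g0 := hcoord 0
  have g1 := hcoord 1
  have g2 := hcoord 2
  have g3 := hcoord 3
  rw [WHyp.B_supp hb3.1 (v := 0) (by decide), WHyp.B_supp hb4.1 (v := 0) (by decide),
    WHyp.B_supp hb5.1 (v := 0) (by decide), WHyp.B_supp hb6.1 (v := 0) (by decide)] at g0
  rw [WHyp.B_supp hb2.1 (v := 1) (by decide), WHyp.B_supp hb4.1 (v := 1) (by decide),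
    WHyp.B_supp hb6.1 (v := 1) (by decide), f31, f51] at g1
  rw [WHyp.B_supp hb1.1 (v := 2) (by decide), WHyp.B_supp hb3.1 (v := 2) (by decide),
    WHyp.B_supp hb5.1 (v := 2) (by decide), f42, f62] at g2
  rw [WHyp.B_supp hb1.1 (v := 3) (by decide), WHyp.B_supp hb4.1 (v := 3) (by decide),
    WHyp.B_supp hb5.1 (v := 3) (by decide), f33, f63] at g3
  clear hcoord f31 f33 f42 f44 f51 f54 f62 f63
  -- facts on the selections for the hyperedges 1 and 2
  have s1 : b {0, 1, 4} 0 + b {0, 1, 4} 1 + b {0, 1, 4} 4 = 0 := by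
    have := WHyp.B_sum hb1.1
    rw [Fin.sum_univ_five, WHyp.B_supp hb1.1 (v := 2) (by decide),
      WHyp.B_supp hb1.1 (v := 3) (by decide)] at this
    linarith
  have s2 : b {0, 2, 3} 0 + b {0, 2, 3} 2 + b {0, 2, 3} 3 = 0 := by
    have := WHyp.B_sum hb2.1
    rw [Fin.sum_univ_five, WHyp.B_supp hb2.1 (v := 1) (by decide),
      WHyp.B_supp hb2.1 (v := 4) (by decide)] at this
    linarith
  have i1 : ∀ q : Fin 5 → ℝ, ex.inner q (b {0, 1, 4}) = ex.ph q 0 * b {0, 1, 4} 0 +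
      ex.ph q 1 * b {0, 1, 4} 1 + ex.ph q 4 * b {0, 1, 4} 4 := by
    intro q
    rw [ex.inner_eq, Fin.sum_univ_five, WHyp.B_supp hb1.1 (v := 2) (by decide),
      WHyp.B_supp hb1.1 (v := 3) (by decide)]
    ring
  have i2 : ∀ q : Fin 5 → ℝ, ex.inner q (b {0, 2, 3}) = ex.ph q 0 * b {0, 2, 3} 0 +
      ex.ph q 2 * b {0, 2, 3} 2 + ex.ph q 3 * b {0, 2, 3} 3 := by
    intro q
    rw [ex.inner_eq, Fin.sum_univ_five, WHyp.B_supp hb2.1 (v := 1) (by decide),
      WHyp.B_supp hb2.1 (v := 4) (by decide)]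
    ring
  have m1 : ∀ u ∈ ({0, 1, 4} : Finset (Fin 5)), ∀ v ∈ ({0, 1, 4} : Finset (Fin 5)),
      ex.ph f u - ex.ph f v ≤ ex.inner f (b {0, 1, 4}) := by
    intro u hu v hv
    rw [← ex.inner_dd]
    exact hb1.2 _ (WHyp.dd_mem hu hv)
  have m2 : ∀ u ∈ ({0, 2, 3} : Finset (Fin 5)), ∀ v ∈ ({0, 2, 3} : Finset (Fin 5)),
      ex.ph f u - ex.ph f v ≤ ex.inner f (b {0, 2, 3}) := by
    intro u hu v hv
    rw [← ex.inner_dd]
    exact hb2.2 _ (WHyp.dd_mem hu hv)
  have m101 := m1 0 (by decide) 1 (by decide)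
  have m110 := m1 1 (by decide) 0 (by decide)
  have m104 := m1 0 (by decide) 4 (by decide)
  have m140 := m1 4 (by decide) 0 (by decide)
  have m114 := m1 1 (by decide) 4 (by decide)
  have m141 := m1 4 (by decide) 1 (by decide)
  have m202 := m2 0 (by decide) 2 (by decide)
  clear m1 m2
  have u10 := WHyp.B_le_one hb1.1 0
  have u11 := WHyp.B_le_one hb1.1 1
  have u14 := WHyp.B_le_one hb1.1 4
  have l10 := WHyp.B_ge hb1.1 0
  have l11 := WHyp.B_ge hb1.1 1
  have l14 := WHyp.B_ge hb1.1 4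
  have u20 := WHyp.B_le_one hb2.1 0
  have u22 := WHyp.B_le_one hb2.1 2
  have u23 := WHyp.B_le_one hb2.1 3
  have l20 := WHyp.B_ge hb2.1 0
  have l22 := WHyp.B_ge hb2.1 2
  have l23 := WHyp.B_ge hb2.1 3
  have M1 := i1 f
  have M2 := i2 f
  have P0 : ex.ph g 0 = g 0 / 18 := by unfold WHyp.ph; rw [deg_eq]; simp
  have P1 : ex.ph g 1 = g 1 / 15 := by unfold WHyp.ph; rw [deg_eq]; simp
  have P2 : ex.ph g 2 = g 2 / 84 := by unfold WHyp.ph; rw [deg_eq]; simp
  have P3 : ex.ph g 3 = g 3 / 37 := by unfold WHyp.ph; rw [deg_eq]; simp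
  -- the candidate `δ_0 - δ_2` for the hyperedge 2
  have hc2 : ex.inner f (b {0, 2, 3}) ≤ 1 → ex.inner g (b {0, 2, 3}) ≤ ex.ph g 0 - ex.ph g 2 := by
    intro h
    have hmem : dd 0 2 ∈ ex.argmax f {0, 2, 3} := by
      refine ⟨WHyp.dd_mem (by decide) (by decide), fun c hc => ?_⟩
      rw [ex.inner_dd, hxy]
      exact (hb2.2 c hc).trans h
    have := var2 _ hmem
    rw [ex.inner_dd] at this
    have hpos : 0 < 16 * ex.inner f (b {0, 2, 3}) := by linarith
    have := (mul_nonneg_iff_of_pos_left hpos).1 this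
    linarith
  have hc1 : ex.inner f (b {0, 1, 4}) ≤ ex.ph f 0 - ex.ph f 4 → 0 < ex.inner f (b {0, 1, 4}) →
      ex.inner g (b {0, 1, 4}) ≤ ex.ph g 0 - ex.ph g 4 := by
    intro h h'
    have hmem : dd 0 4 ∈ ex.argmax f {0, 1, 4} := by
      refine ⟨WHyp.dd_mem (by decide) (by decide), fun c hc => ?_⟩
      rw [ex.inner_dd]
      exact (hb1.2 c hc).trans h
    have := var1 _ hmem
    rw [ex.inner_dd] at this
    have hpos : 0 < 2 * ex.inner f (b {0, 1, 4}) := by linarith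
    have := (mul_nonneg_iff_of_pos_left hpos).1 this
    linarith
  rw [i2 g] at hc2
  rw [i1 g] at hc1
  rw [ex.inner_dd]
  have e0 : ex.ph f 0 = 1 + ex.ph f 2 := by linarith
  refine core (al := ex.ph f 1 - ex.ph f 2) (be := ex.ph f 3 - ex.ph f 2)
    (ga := ex.ph f 4 - ex.ph f 2) (A := ex.inner f (b {0, 1, 4})) (D := ex.inner f (b {0, 2, 3}))
    (by linarith) (by linarith) (by linarith) (by linarith) (by linarith) (by linarith)
    (by linarith) (by linarith) (by linarith) (by linarith) (by linarith) u10 u11 l10 l11 l14 u20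
    l22 s1 s2 ?_ ?_ ?_ ?_ ?_ ?_ (fun h => hc1 (by linarith)) hc2
  · rw [M1, e0]
    linear_combination ex.ph f 2 * s1
  · rw [M2, e0]
    linear_combination ex.ph f 2 * s2
  · rw [P0, g0]
    ring
  · rw [P1, g1]
    ring
  · rw [P2, g2]
    ring
  · rw [P3, g3]
    ring

end Q210.IK
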