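import Pool.Agent.Q210.IK.Ex

/-!
# Upper bound: `K_l(x, y) ≥ 1 - (386/363) l` for small `l > 0`
-/

namespace Q210.IK

open Finset Filter Topology WHyp

theorem argmax_of {V : Type} [Fintype V] [DecidableEq V] (H : WHyp V) {f b : V → ℝ}
    {e : Finset V} (hb : b ∈ B e) (h : ∀ x ∈ e, ∀ y ∈ e, H.ph f x - H.ph f y ≤ H.inner f b) :
    b ∈ H.argmax f e := by
  refine ⟨hb, fun c hc => ?_⟩
  rw [← H.innerL_apply f c]
  refine B_le (fun x hx y hy => ?_) hc
  rw [H.innerL_apply, H.inner_dd]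
  exact h x hx y hy

/-- The coordinates of the solution. -/
noncomputable def et (l : ℝ) : Fin 5 → ℝ :=
  ![1 - 386 / 363 * l, 1 - 386 / 363 * l, 0, 0, l / 4]

/-- The solution. -/
noncomputable def hh (l : ℝ) : Fin 5 → ℝ := fun v => ex.deg v * et l v

theorem ph_hh (l : ℝ) (v : Fin 5) : ex.ph (hh l) v = et l v := by
  unfold WHyp.ph hh
  have : ex.deg v ≠ 0 := by
    rw [deg_eq]
    fin_cases v <;> simp
  field_simp

/-- The selection. -/
noncomputable def bb (e : Finset (Fin 5)) : Fin 5 → ℝ :=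
  if e = {0, 1, 4} then dd 1 4 else
  if e = {0, 2, 3} then dd 0 2 + (61 / 726 : ℝ) • (dd 0 3 - dd 0 2) else
  if e = {1, 3} then dd 1 3 else if e = {2, 4} then dd 4 2 else
  if e = {1, 4} then dd 1 4 else dd 2 3

theorem bb1 : bb {0, 1, 4} = dd 1 4 := by simp [bb]
theorem bb2 : bb {0, 2, 3} = dd 0 2 + (61 / 726 : ℝ) • (dd 0 3 - dd 0 2) := by
  unfold bb
  rw [if_neg (by decide), if_pos rfl]
theorem bb3 : bb {1, 3} = dd 1 3 := by
  unfold bb
  rw [if_neg (by decide), if_neg (by decide), if_pos rfl]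
theorem bb4 : bb {2, 4} = dd 4 2 := by
  unfold bb
  rw [if_neg (by decide), if_neg (by decide), if_neg (by decide), if_pos rfl]
theorem bb5 : bb {1, 4} = dd 1 4 := by
  unfold bb
  rw [if_neg (by decide), if_neg (by decide), if_neg (by decide), if_neg (by decide), if_pos rfl]
theorem bb6 : bb {2, 3} = dd 2 3 := by
  unfold bb
  rw [if_neg (by decide), if_neg (by decide), if_neg (by decide), if_neg (by decide),
    if_neg (by decide)]

theorem inner_bb2 (f : Fin 5 → ℝ) : ex.inner f (dd 0 2 + (61 / 726 : ℝ) • (dd 0 3 - dd 0 2)) =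
    ex.ph f 0 - 665 / 726 * ex.ph f 2 - 61 / 726 * ex.ph f 3 := by
  rw [← ex.innerL_apply, map_add, map_smul, map_sub, ex.innerL_apply, ex.innerL_apply,
    ex.inner_dd, ex.inner_dd, smul_eq_mul]
  ring

theorem bb_mem {l : ℝ} (hl : 0 < l) (hl1 : l ≤ 1 / 10) :
    ∀ e ∈ ex.edges, bb e ∈ ex.argmax (hh l) e := by
  intro e he
  have he' : e ∈ exE := he
  have hmem : e = {0, 1, 4} ∨ e = {0, 2, 3} ∨ e = {1, 3} ∨ e = {2, 4} ∨ e = {1, 4} ∨
      e = {2, 3} := by
    simpa [exE] using he'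
  have e0 : et l 0 = 1 - 386 / 363 * l := rfl
  have e1 : et l 1 = 1 - 386 / 363 * l := rfl
  have e2 : et l 2 = 0 := rfl
  have e3 : et l 3 = 0 := rfl
  have e4 : et l 4 = l / 4 := rfl
  rcases hmem with rfl | rfl | rfl | rfl | rfl | rfl
  · rw [bb1]
    refine argmax_of ex (dd_mem (by decide) (by decide)) ?_
    rw [ex.inner_dd]
    simp only [Finset.mem_insert, Finset.mem_singleton, forall_eq_or_imp, forall_eq, ph_hh,
      e0, e1, e4]
    refine ⟨⟨?_, ?_, ?_⟩, ⟨?_, ?_, ?_⟩, ?_, ?_, ?_⟩ <;> linarith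
  · rw [bb2]
    refine argmax_of ex ?_ ?_
    · exact (convex_convexHull ℝ _).add_smul_sub_mem (dd_mem (by decide) (by decide))
        (dd_mem (by decide) (by decide)) ⟨by norm_num, by norm_num⟩
    · rw [inner_bb2]
      simp only [Finset.mem_insert, Finset.mem_singleton, forall_eq_or_imp, forall_eq, ph_hh,
        e0, e2, e3]
      refine ⟨⟨?_, ?_, ?_⟩, ⟨?_, ?_, ?_⟩, ?_, ?_, ?_⟩ <;> linarith
  · rw [bb3]
    refine argmax_of ex (dd_mem (by decide) (by decide)) ?_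
    rw [ex.inner_dd]
    simp only [Finset.mem_insert, Finset.mem_singleton, forall_eq_or_imp, forall_eq, ph_hh,
      e1, e3]
    refine ⟨⟨?_, ?_⟩, ?_, ?_⟩ <;> linarith
  · rw [bb4]
    refine argmax_of ex (dd_mem (by decide) (by decide)) ?_
    rw [ex.inner_dd]
    simp only [Finset.mem_insert, Finset.mem_singleton, forall_eq_or_imp, forall_eq, ph_hh,
      e2, e4]
    refine ⟨⟨?_, ?_⟩, ?_, ?_⟩ <;> linarith
  · rw [bb5]
    refine argmax_of ex (dd_mem (by decide) (by decide)) ?_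
    rw [ex.inner_dd]
    simp only [Finset.mem_insert, Finset.mem_singleton, forall_eq_or_imp, forall_eq, ph_hh,
      e1, e4]
    refine ⟨⟨?_, ?_⟩, ?_, ?_⟩ <;> linarith
  · rw [bb6]
    refine argmax_of ex (dd_mem (by decide) (by decide)) ?_
    rw [ex.inner_dd]
    simp only [Finset.mem_insert, Finset.mem_singleton, forall_eq_or_imp, forall_eq, ph_hh,
      e2, e3]
    refine ⟨⟨?_, ?_⟩, ?_, ?_⟩ <;> linarith

/-- The element of the Laplacian of `hh l`. -/
noncomputable def pp (l : ℝ) : Fin 5 → ℝ :=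
  ∑ e ∈ ex.edges, (ex.weight e * ex.inner (hh l) (bb e)) • bb e

theorem pp_mem {l : ℝ} (hl : 0 < l) (hl1 : l ≤ 1 / 10) : pp l ∈ ex.lap (hh l) :=
  ⟨bb, bb_mem hl hl1, rfl⟩

theorem pp_apply (l : ℝ) (v : Fin 5) :
    pp l v = ![16 * (1 - 386 / 363 * l),
      15 * (1 - 386 / 363 * l) - 14 * (l / 4),
      - (16 * (1 - 386 / 363 * l) * (665 / 726) + 48 * (l / 4)),
      - (16 * (1 - 386 / 363 * l) * (61 / 726) + (1 - 386 / 363 * l)),
      - 14 * (1 - 386 / 363 * l) + 62 * (l / 4)] v := by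
  have h1 : pp l = ∑ e ∈ exE, (exW e * ex.inner (hh l) (bb e)) • bb e := rfl
  rw [h1, sum_exE, exW1, exW2, exW3, exW4, exW5, exW6, bb1, bb2, bb3, bb4, bb5, bb6, inner_bb2]
  simp only [ex.inner_dd, ph_hh, Pi.add_apply, Pi.smul_apply, Pi.sub_apply, smul_eq_mul, dd_apply]
  have e0 : et l 0 = 1 - 386 / 363 * l := rfl
  have e1 : et l 1 = 1 - 386 / 363 * l := rfl
  have e2 : et l 2 = 0 := rfl
  have e3 : et l 3 = 0 := rfl
  have e4 : et l 4 = l / 4 := rfl
  rw [e0, e1, e2, e3, e4]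
  fin_cases v <;> simp <;> ring

theorem one_le_dist {u v : Fin 5} (h : u ≠ v) : 1 ≤ ex.dist u v := by
  have := connected.pos_dist_of_ne h
  unfold WHyp.dist
  exact_mod_cast this

theorem two_le_dist : 2 ≤ ex.dist 1 2 := by
  have h1 := connected.pos_dist_of_ne (show (1 : Fin 5) ≠ 2 by decide)
  have h2 : ex.graph.dist 1 2 ≠ 1 := by
    intro h
    obtain ⟨_, e, he, h3, h4⟩ := SimpleGraph.dist_eq_one_iff_adj.1 h
    have he' : e ∈ exE := he
    have : ∀ e ∈ exE, (1 : Fin 5) ∈ e → (2 : Fin 5) ∉ e := by decide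
    exact this e he' h3 h4
  unfold WHyp.dist
  have h5 : 2 ≤ ex.graph.dist 1 2 := by omega
  exact_mod_cast h5

theorem ff_lip {l : ℝ} (hl : 0 < l) (hl1 : l ≤ 1 / 10) : hh l + l • pp l ∈ ex.Lip := by
  intro u v
  rw [ex.inner_dd]
  have key : ∀ w, ex.ph (hh l + l • pp l) w = et l w + l * pp l w / ![18, 15, 84, 37, 62] w := by
    intro w
    rw [← ph_hh]
    unfold WHyp.ph
    simp only [Pi.add_apply, Pi.smul_apply, smul_eq_mul]
    rw [add_div]
    congr 2
    exact deg_eq w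
  have k0 := key 0
  have k1 := key 1
  have k2 := key 2
  have k3 := key 3
  have k4 := key 4
  rw [pp_apply] at k0 k1 k2 k3 k4
  have hsq : 0 < l * l := mul_pos hl hl
  have hsq1 : l * l ≤ l / 10 := by nlinarith
  simp only [et, Matrix.cons_val_zero, Matrix.cons_val_one, Matrix.cons_val] at k0 k1 k2 k3 k4
  rcases eq_or_ne u v with rfl | huv
  · rw [sub_self]
    exact Nat.cast_nonneg _
  have d1 := one_le_dist huv
  have d2 := two_le_dist
  by_cases h12 : u = 1 ∧ v = 2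
  · obtain ⟨rfl, rfl⟩ := h12
    rw [k1, k2]
    nlinarith
  refine le_trans ?_ d1
  fin_cases u <;> fin_cases v <;>
    first
    | exact absurd rfl huv
    | exact absurd ⟨rfl, rfl⟩ h12
    | (simp only [Fin.zero_eta, Fin.mk_one, Fin.reduceFinMk]
       simp only [k0, k1, k2, k3, k4]
       nlinarith)

theorem quot_le {l : ℝ} (hl : 0 < l) (hl1 : l ≤ 1 / 10) : ex.quot 0 2 l ≤ 386 / 363 := by
  have hd : ex.dist 0 2 = 1 := dist_one (by decide) mem2 (by decide) (by decide)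
  have hK : 1 - 386 / 363 * l ≤ ex.K l 0 2 := by
    refine le_csSup (ex.bddAbove_K hl 0 2) ⟨_, ff_lip hl hl1, hh l, ⟨pp l, pp_mem hl hl1, rfl⟩, ?_⟩
    rw [ex.inner_dd, ph_hh, ph_hh]
    simp [et]
  unfold WHyp.quot
  rw [hd, div_one, div_mul_eq_mul_div, one_mul, div_le_iff₀ hl]
  linarith

end Q210.IK
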