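import Pool.Agent.Q210.IK.Lower
import Pool.Agent.Q210.IK.Upper

/-!
# The Laplacian formula for the IKTU curvature fails
-/

namespace Q210.IK

open Finset Filter Topology WHyp

theorem C_ge : 107 / 100 ≤ ex.C 0 2 := by
  have hd : ex.dist 0 2 = 1 := dist_one (by decide) mem2 (by decide) (by decide)
  unfold WHyp.C
  rw [hd, div_one, one_mul]
  refine le_csInf ?_ ?_
  · -- some function is admissible: the distance-like function with values 1,1,0,0,0
    have hlip : ∃ f ∈ ex.Lip, ex.inner f (dd 0 2) = 1 := by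
      refine ⟨fun v => ex.deg v * ![1, 1, 0, 0, 0] v, ?_, ?_⟩
      · intro u v
        have hph : ∀ v, ex.ph (fun v => ex.deg v * (![1, 1, 0, 0, 0] : Fin 5 → ℝ) v) v =
            (![1, 1, 0, 0, 0] : Fin 5 → ℝ) v := by
          intro v
          unfold WHyp.ph
          have : ex.deg v ≠ 0 := by
            rw [deg_eq]
            fin_cases v <;> simp
          field_simp
        rw [ex.inner_dd, hph, hph]
        rcases eq_or_ne u v with rfl | huv
        · rw [sub_self]
          exact Nat.cast_nonneg _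
        · refine le_trans ?_ (one_le_dist huv)
          fin_cases u <;> fin_cases v <;> simp
      · rw [ex.inner_dd]
        unfold WHyp.ph
        simp [deg_eq]
    obtain ⟨f, hf, hf1⟩ := hlip
    obtain ⟨g, hg⟩ := ex.exists_lap0 f
    exact ⟨_, f, hf, hf1, g, hg, rfl⟩
  · rintro r ⟨f, hf, hf1, g, hg, rfl⟩
    exact lower hf hf1 hg

theorem main : ex.graph.Connected ∧
    (∀ᶠ l in 𝓝[>] (0 : ℝ), ex.quot 0 2 l ≤ 386 / 363) ∧ 107 / 100 ≤ ex.C 0 2 ∧
    ∀ k : ℝ, Tendsto (ex.quot 0 2) (𝓝[>] 0) (𝓝 k) → k < ex.C 0 2 := by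
  have h1 : ∀ᶠ l in 𝓝[>] (0 : ℝ), ex.quot 0 2 l ≤ 386 / 363 := by
    filter_upwards [Ioc_mem_nhdsGT (show (0 : ℝ) < 1 / 10 by norm_num)] with l hl
    exact quot_le hl.1 hl.2
  refine ⟨connected, h1, C_ge, fun k hk => ?_⟩
  have h2 : k ≤ 386 / 363 := le_of_tendsto hk h1
  have h3 := C_ge
  linarith

end Q210.IK
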